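import Mathlib

/-!
# The entropy of a sum of two independent bits

For `e > 0` there is `C` with `(1 - e) (h p + h q) - C (h p) (h q) ≤ h (p (1 - q) + q (1 - p))`,
where `h` is the binary entropy.
-/

set_option autoImplicit false

namespace Pool.Agent.Helper74.ADD

open Real

/-- lower bound by one summand -/
theorem mul_log_inv_le {x : ℝ} (h0 : 0 ≤ x) (h1 : x ≤ 1) : x * log x⁻¹ ≤ binEntropy x := by
  unfold binEntropy
  have h : 0 ≤ (1 - x) * log (1 - x)⁻¹ := by
    rcases eq_or_lt_of_le h1 with rfl | h1'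
    · simp
    · apply mul_nonneg (by linarith)
      apply log_nonneg
      rw [one_le_inv₀ (by linarith)]
      linarith
  linarith

/-- upper bound -/
theorem le_mul_log_inv {x : ℝ} (h1 : x < 1) :
    binEntropy x ≤ x * log x⁻¹ + x := by
  unfold binEntropy
  have h2 : (0 : ℝ) < (1 - x)⁻¹ := by
    apply inv_pos.mpr
    linarith
  have h : log (1 - x)⁻¹ ≤ (1 - x)⁻¹ - 1 := log_le_sub_one_of_pos h2
  have h3 : (1 - x) * log (1 - x)⁻¹ ≤ (1 - x) * ((1 - x)⁻¹ - 1) :=
    mul_le_mul_of_nonneg_left h (by linarith)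
  have h4 : (1 - x) * ((1 - x)⁻¹ - 1) = x := by
    have : (1 - x) ≠ 0 := by linarith
    field_simp
    ring
  linarith

theorem mul_log_div {p q : ℝ} (hp : 0 < p) (hq : 0 ≤ q) :
    p * log p⁻¹ ≤ p * log (p + q)⁻¹ + q := by
  have h1 : log p⁻¹ - log (p + q)⁻¹ = log ((p + q) / p) := by
    rw [log_inv, log_inv, log_div (by linarith) (by linarith)]
    ring
  have h2 : log ((p + q) / p) ≤ (p + q) / p - 1 := log_le_sub_one_of_pos (by positivity)
  have h3 : p * log ((p + q) / p) ≤ p * ((p + q) / p - 1) := mul_le_mul_of_nonneg_left h2 hp.le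
  have h4 : p * ((p + q) / p - 1) = q := by
    field_simp
    ring
  have h5 : p * log p⁻¹ - p * log (p + q)⁻¹ = p * log ((p + q) / p) := by rw [← h1]; ring
  linarith

theorem mul_log_div' {p q : ℝ} (hp : 0 ≤ p) (hq : 0 ≤ q) :
    p * log p⁻¹ ≤ p * log (p + q)⁻¹ + q := by
  rcases eq_or_lt_of_le hp with rfl | hp'
  · simpa using hq
  · exact mul_log_div hp' hq

/-- small arguments -/
theorem small {p q : ℝ} (hp : 0 ≤ p) (hq : 0 ≤ q) (hp2 : p < 1 / 2) (hq2 : q < 1 / 2) :
    binEntropy p + binEntropy q - 3 * (p + q) ≤ binEntropy (p * (1 - q) + q * (1 - p)) := by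
  rcases eq_or_lt_of_le (add_nonneg hp hq) with h0 | h0
  · have hp0 : p = 0 := by linarith
    have hq0 : q = 0 := by linarith
    subst hp0
    subst hq0
    simp
  have hs0 : 0 ≤ p * (1 - q) + q * (1 - p) := by
    have := mul_nonneg hp (by linarith : 0 ≤ 1 - q)
    have := mul_nonneg hq (by linarith : 0 ≤ 1 - p)
    linarith
  have hpq : 0 ≤ p * q := mul_nonneg hp hq
  have hs1 : p * (1 - q) + q * (1 - p) ≤ p + q := by nlinarith
  have hs2 : p * (1 - q) + q * (1 - p) = p + q - 2 * (p * q) := by ring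
  have hsp : 0 < p * (1 - q) + q * (1 - p) := by
    rcases eq_or_lt_of_le hp with hp' | hp'
    · have : 0 < q := by linarith
      rw [← hp']
      simpa using this
    · have h1 : 0 < p * (1 - q) := mul_pos hp' (by linarith)
      have h2 : 0 ≤ q * (1 - p) := mul_nonneg hq (by linarith)
      linarith
  have h1 := mul_log_inv_le hs0 (by linarith : p * (1 - q) + q * (1 - p) ≤ 1)
  set s := p * (1 - q) + q * (1 - p) with hs
  set l := log (p + q)⁻¹ with hl
  have hl0 : 0 ≤ l := by
    apply log_nonneg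
    rw [one_le_inv₀ h0]
    linarith
  have h2 : l ≤ log s⁻¹ := by
    apply log_le_log (inv_pos.mpr h0)
    exact inv_anti₀ hsp hs1
  have h3 : s * l ≤ s * log s⁻¹ := mul_le_mul_of_nonneg_left h2 hs0
  have h4 := le_mul_log_inv (x := p) (by linarith)
  have h5 := le_mul_log_inv (x := q) (by linarith)
  have h6 : p * log p⁻¹ ≤ p * l + q := mul_log_div' hp hq
  have h7 : q * log q⁻¹ ≤ q * l + p := by
    have := mul_log_div' hq hp
    rwa [add_comm q p] at this
  -- `2 p q l ≤ p + q`
  have h8 : (p + q) * l ≤ 1 := by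
    have h : l ≤ (p + q)⁻¹ - 1 := log_le_sub_one_of_pos (inv_pos.mpr h0)
    have h' : (p + q) * l ≤ (p + q) * ((p + q)⁻¹ - 1) := mul_le_mul_of_nonneg_left h h0.le
    have h'' : (p + q) * ((p + q)⁻¹ - 1) = 1 - (p + q) := by
      have := h0.ne'
      field_simp
    linarith
  have h9 : 2 * (p * q) * l ≤ p + q := by
    have ha : 2 * (p * q) ≤ (p + q) * (p + q) := by nlinarith [sq_nonneg p, sq_nonneg q]
    have hb : 2 * (p * q) * l ≤ (p + q) * (p + q) * l := mul_le_mul_of_nonneg_right ha hl0
    have hc : (p + q) * ((p + q) * l) ≤ (p + q) * 1 := mul_le_mul_of_nonneg_left h8 h0.le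
    nlinarith
  have h10 : s * l = p * l + q * l - 2 * (p * q) * l := by
    rw [hs2]
    ring
  linarith

/-- one argument at least `t`, both at most `1 / 2` -/
theorem large {p q t : ℝ} (ht : 0 < t) (hp : 0 ≤ p) (hp2 : p ≤ 1 / 2) (hq : t ≤ q)
    (hq2 : q ≤ 1 / 2) :
    binEntropy p + binEntropy q - 1 / binEntropy t * (binEntropy p * binEntropy q) ≤
      binEntropy (p * (1 - q) + q * (1 - p)) := by
  have hq0 : 0 < q := lt_of_lt_of_le ht hq
  have ht2 : t ≤ 1 / 2 := hq.trans hq2
  have hmono : MonotoneOn binEntropy (Set.Icc 0 2⁻¹) := binEntropy_strictMonoOn.monotoneOn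
  have h1 : binEntropy t ≤ binEntropy q :=
    hmono ⟨ht.le, by norm_num at *; linarith⟩ ⟨hq0.le, by norm_num at *; linarith⟩ hq
  have h2 : 0 < binEntropy t := binEntropy_pos ht (by linarith)
  have h3 : 0 ≤ binEntropy p := binEntropy_nonneg hp (by linarith)
  have hs : q ≤ p * (1 - q) + q * (1 - p) := by nlinarith
  have hs' : p * (1 - q) + q * (1 - p) ≤ 1 / 2 := by nlinarith
  have h4 : binEntropy q ≤ binEntropy (p * (1 - q) + q * (1 - p)) :=
    hmono ⟨hq0.le, by norm_num at *; linarith⟩
      ⟨hq0.le.trans hs, by norm_num at *; linarith⟩ hs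
  have h5 : 1 ≤ 1 / binEntropy t * binEntropy q := by
    rw [one_div, inv_mul_eq_div, one_le_div h2]
    exact h1
  have h6 : binEntropy p ≤ 1 / binEntropy t * (binEntropy p * binEntropy q) := by
    have := mul_le_mul_of_nonneg_left h5 h3
    calc binEntropy p = binEntropy p * 1 := by ring
      _ ≤ binEntropy p * (1 / binEntropy t * binEntropy q) := this
      _ = _ := by ring
  linarith

/-- arguments at most `1 / 2` -/
theorem half (e : ℝ) (he : 0 < e) : ∃ C : ℝ, 0 ≤ C ∧ ∀ p q : ℝ, 0 ≤ p → p ≤ 1 / 2 → 0 ≤ q →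
    q ≤ 1 / 2 →
    (1 - e) * (binEntropy p + binEntropy q) - C * (binEntropy p * binEntropy q) ≤
      binEntropy (p * (1 - q) + q * (1 - p)) := by
  set t : ℝ := min (1 / 2) (exp (-(3 / e))) with ht
  have ht0 : 0 < t := lt_min (by norm_num) (exp_pos _)
  have ht2 : t ≤ 1 / 2 := min_le_left _ _
  have hht : 0 < binEntropy t := binEntropy_pos ht0 (by linarith)
  have key : ∀ x : ℝ, 0 ≤ x → x < t → 3 * x ≤ e * binEntropy x := by
    intro x hx hxt
    rcases eq_or_lt_of_le hx with rfl | hx'
    · simp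
    have h1 := mul_log_inv_le hx (by linarith)
    have h2 : 3 / e ≤ log x⁻¹ := by
      rw [log_inv]
      have : log x ≤ log (exp (-(3 / e))) :=
        log_le_log hx' (hxt.le.trans (min_le_right _ _))
      rw [log_exp] at this
      linarith
    have h3 : x * (3 / e) ≤ x * log x⁻¹ := mul_le_mul_of_nonneg_left h2 hx
    have h4 : e * (x * (3 / e)) = 3 * x := by
      field_simp
    have h5 : e * (x * (3 / e)) ≤ e * binEntropy x :=
      mul_le_mul_of_nonneg_left (h3.trans h1) he.le
    linarith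
  refine ⟨1 / binEntropy t, by positivity, ?_⟩
  intro p q hp hp2 hq hq2
  have hp0 : 0 ≤ binEntropy p := binEntropy_nonneg hp (by linarith)
  have hq0 : 0 ≤ binEntropy q := binEntropy_nonneg hq (by linarith)
  have hexp : (1 - e) * (binEntropy p + binEntropy q) ≤ binEntropy p + binEntropy q := by
    nlinarith
  rcases le_or_gt t q with h | h
  · have := large ht0 hp hp2 h hq2
    linarith
  rcases le_or_gt t p with h' | h'
  · have := large ht0 hq hq2 h' hp2
    have e1 : q * (1 - p) + p * (1 - q) = p * (1 - q) + q * (1 - p) := by ring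
    have e2 : binEntropy q * binEntropy p = binEntropy p * binEntropy q := by ring
    rw [e1, e2] at this
    linarith
  · have h1 := small hp hq (by linarith) (by linarith)
    have h2 := key p hp h'
    have h3 := key q hq h
    have h4 : 0 ≤ 1 / binEntropy t * (binEntropy p * binEntropy q) := by positivity
    nlinarith

/-- The pointwise lemma. -/
theorem pointwise (e : ℝ) (he : 0 < e) : ∃ C : ℝ, 0 ≤ C ∧ ∀ p q : ℝ, 0 ≤ p → p ≤ 1 → 0 ≤ q →
    q ≤ 1 →
    (1 - e) * (Real.binEntropy p + Real.binEntropy q) -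
      C * (Real.binEntropy p * Real.binEntropy q) ≤
      Real.binEntropy (p * (1 - q) + q * (1 - p)) := by
  obtain ⟨C, hC, h⟩ := half e he
  refine ⟨C, hC, ?_⟩
  -- first reduce `q`
  have h1 : ∀ p q : ℝ, 0 ≤ p → p ≤ 1 / 2 → 0 ≤ q → q ≤ 1 →
      (1 - e) * (Real.binEntropy p + Real.binEntropy q) -
        C * (Real.binEntropy p * Real.binEntropy q) ≤
      Real.binEntropy (p * (1 - q) + q * (1 - p)) := by
    intro p q hp hp2 hq hq1
    rcases le_or_gt q (1 / 2) with hh | hh
    · exact h p q hp hp2 hq hh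
    · have := h p (1 - q) hp hp2 (by linarith) (by linarith)
      rw [binEntropy_one_sub] at this
      have e1 : p * (1 - (1 - q)) + (1 - q) * (1 - p) = 1 - (p * (1 - q) + q * (1 - p)) := by
        ring
      rw [e1, binEntropy_one_sub] at this
      exact this
  intro p q hp hp1 hq hq1
  rcases le_or_gt p (1 / 2) with hh | hh
  · exact h1 p q hp hh hq hq1
  · have := h1 (1 - p) q (by linarith) (by linarith) hq hq1
    rw [binEntropy_one_sub] at this
    have e1 : (1 - p) * (1 - q) + q * (1 - (1 - p)) = 1 - (p * (1 - q) + q * (1 - p)) := by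
      ring
    rw [e1, binEntropy_one_sub] at this
    exact this

end Pool.Agent.Helper74.ADD
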